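import Pool.Agent.Lib_helper48.OpChow.FIN

/-!
# Image of operational classes in the Chow group of a stack (MP_1b5a48_ag): Q1 is false

For `𝒳 = [𝔸⁶ / G_m]` with weights `1, 1, 1, -1, -1, -1` and coordinates `x₁, x₂, x₃, y₁, y₂, y₃`, let
`𝒵` be the closed substack where `x` and `y` are linearly dependent. It is primarily strong of
codimension `2`, its class is nonzero in `A²(𝒳)_ℚ`, and no operational class of degree `2` on the
good moduli space pulls back to it.
-/

universe u

open Pool.Agent.OpChow in
/-- The stack `[𝔸⁶ / G_m]` with weights `1, 1, 1, -1, -1, -1` is properly stable, and some element of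
`A²_pst(𝒳/X)_ℚ` is not the pull-back `c ∩ [𝒳]` of a (weak) operational class `c` of degree `2` of its
good moduli space `X`. -/
theorem Pool.Agent.Results.MP_1b5a48_ag.StrongCycles.result (k : Type u) [Field k]
    [IsAlgClosed k] :
    ProperlyStable k w₀ ∧
      ∃ z ∈ Apst k w₀ 2, ∀ c : OpClass k (Inv k w₀) 2, pull k w₀ 2 c ≠ z :=
  ⟨properly_stable, final⟩
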